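import Pool.Agent.W896.FD.GI

/-!
# Randomised circuits for graph isomorphism have superlinear formal degree

A Boolean circuit with AND gates of fan-in two, OR gates of any fan-in and negations at the inputs
accepts if and only if it has a proof tree all of whose leaves are true literals; the formal degree
in an input bit is the largest number of leaves with this bit. (Circuits of polynomial size and
polynomial total degree are non-uniform LOGCFL, that is, non-uniform nondeterministic machines with
logarithmic memory, a stack and polynomial time; the circuits of degree one in every bit are the
decomposable ones, DNNFs, and a nondeterministic syntactic read-`k` branching program is a circuit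
of degree at most `k` in every bit.)

The input consists of the bits of two graphs `G`, `H` with `n` vertices. Let a finite family of
circuits accept no pair of non-isomorphic graphs, and let it accept each pair of isomorphic graphs
with probability at least `2 ^ (- n / 2 ^ (60 (k + 1)))` (over a random circuit of the family). If
the formal degrees of each circuit in the bits of the first graph sum up to at most `k n ^ 2` then
some circuit of the family has size at least `2 ^ (n / 2 ^ (60 (k + 1)) - 1)`; the bits of the
second graph may be read arbitrarily often. So randomised circuits of polynomial size (even of size
`2 ^ (n ^ (1 - ε))`) need formal degree `Ω (n ^ 2 log n)` in the bits of the first graph, that is,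
`Ω (log n)` for an average bit. With degree one in each bit the size `n ! n ^ 2` suffices (guess
the isomorphism).

Proof. Both graphs are disjoint unions of paths with six vertices. In each path there are two
pairs of vertices such that the graph remains (up to isomorphism) the same if the second pair is
joined instead of the first. If the states of the pairs do not fit there are two leaves with a
common neighbour in some component, so the graphs are not isomorphic. Hence a rectangle for a
partition of the bits which separates the pairs of a path contains only few of these graphs. The
vertices are permuted randomly; for all but an exponentially small fraction of the permutations,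
each of the `O (k ^ 2)` pieces of a proof tree (which depend on few bits, and every bit occurs in
`O (k)` of them) separates the pairs in linearly many paths after a random colouring
(`Pool.Agent.W896.FD.moment`, `Pool.Agent.W896.FD.count`).
-/

set_option autoImplicit false

namespace Pool.Agent.Results.MP_128e7d_lc.FormalDegree

open Pool.Agent.W896.RK Pool.Agent.W896.FD

/-- Let `U r` be a finite nonempty family of circuits with the bits of two graphs on `n` vertices
as inputs such that no circuit of the family accepts a pair of non-isomorphic graphs, and such that
every pair of isomorphic graphs is accepted by at least a `2 ^ (- ⌊n / 2 ^ (60 (k + 1))⌋)`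
fraction of the circuits. If in every circuit of the family the sum of the formal degrees in the
bits of the first graph is at most `k n ^ 2` then, for some circuit of the family,
`n ≤ 2 ^ (60 (k + 1)) (⌊log₂ s⌋ + 1)`, where `s` is its number of gates. -/
theorem result (k n : ℕ) (R : Type) [Fintype R] [Nonempty R]
    (U : R → Circ (Bool × Sym2 (Fin n)))
    (hU : ∀ r (G H : SimpleGraph (Fin n)), (U r).Val (pairBits G H) (U r).out →
      Nonempty (G ≃g H))
    (hc : ∀ G H : SimpleGraph (Fin n), Nonempty (G ≃g H) →
      Nat.card R ≤ 2 ^ (n / 2 ^ (60 * (k + 1))) *
        Nat.card {r // (U r).Val (pairBits G H) (U r).out})
    (hd : ∀ r, ∃ d : (U r).G → Sym2 (Fin n) → ℕ, IsDeg (U r) (fun e => (false, e)) d ∧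
      ∑ e, d (U r).out e ≤ k * n ^ 2) :
    ∃ r, n ≤ 2 ^ (60 * (k + 1)) * (Nat.log 2 (Fintype.card (U r).G) + 1) :=
  gi_final k n R U hU hc hd

end Pool.Agent.Results.MP_128e7d_lc.FormalDegree
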