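import Pool.Agent.W185.LSQ.Main

/-!
# Latin square isomorphism needs Weisfeiler-Leman dimension of order `log n`

There is a constant `C` such that for every `k ≥ 1` there are two Latin squares of the same order
`n ≤ 2 ^ (C k)` whose Latin square graphs are not isomorphic but are not distinguished by the
`k`-dimensional Weisfeiler-Leman method. So the combinatorial method with a dimension `o(log n)`
does not decide the isomorphism of Latin square graphs (or of Latin squares), while dimension
`O(log n)`, the method behind the time bound `n ^ O(log n)` of Miller, suffices.

The Latin squares are the tables of loops on `A × Γ ^ E × Γ`, with `A`, `Γ` elementary abelian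
`2`-groups and `E` the set of edges of a graph with `O(k)` vertices and edges which keeps a large
component after the deletion of `2 k + 2` vertices. The product is
`(x, c, g) (y, d, g') = (x + y, c + d, g + g' + φ(x, y)(c) + h(x, y) + [x = e, y = 0] τ)`; the term
`φ` carries a system of equations of Cai-Fürer-Immerman type, and `h : A × A → Γ` is chosen by
counting, so that the only isotopisms are the gauge transformations.
-/

set_option autoImplicit false

namespace Pool.Agent.Results.MP_128e7d_lc.LatinSquareWL

open Pool.Agent.W185.SRG Pool.Agent.W185.LSQ

theorem result : ∃ C : ℕ, ∀ k : ℕ, 1 ≤ k →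
    ∃ (Q : Type) (_ : Fintype Q) (L L' : Q → Q → Q), IsLatinSquare L ∧ IsLatinSquare L' ∧
      Fintype.card Q ≤ 2 ^ (C * k) ∧ IsEmpty (latinGraph L ≃g latinGraph L') ∧
      WLEquivalent k (latinGraph L) (latinGraph L') :=
  ⟨61600, fun k hk => Pool.Agent.W185.LSQ.main k hk⟩

end Pool.Agent.Results.MP_128e7d_lc.LatinSquareWL
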