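import Pool.Agent.W896.HB.GI

/-!
# Graph isomorphism on machines with a stack: a trade-off between head movement and memory

The model is a non-uniform nondeterministic machine with `k` two-way heads on the input, a memory
of `log s` bits (`s` nodes) and a stack (pushdown store) of unlimited height; the number of steps
is unlimited too. Deterministic log-space machines of this kind decide exactly the languages in P
(Cook 1971), so graph isomorphism is in P if and only if it is decided by such a (uniform) machine
with `O (log n)` bits of memory. The only resource that is bounded here, apart from the memory, is
the way `T` of the heads on the input, which consists of the two adjacency matrices, written row by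
row. The theorem says `T * log s ≥ c n ^ 3` for graphs with `n` vertices, both for isomorphism and
for non-isomorphism. In terms of the length `N = 2 n ^ 2` of the input: time times memory is
`Ω (N ^ (3 / 2))`; with a memory of `O (log N)` bits the heads have to move `Ω (N ^ (3 / 2) / log N)`
cells.

Proof. For machines with little head movement we use the number on the forehead method with the
generalised inner product (Babai, Nisan and Szegedy), as in our result on satisfiability
(`MP_8a52c3_lc`, `StackTradeoff`). Here the generalised inner product is put into graphs of maximum
degree two: by Barrington's commutators the conjunction of `2 k + 1` bits becomes a word over the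
symmetric group of degree five whose value is an involution or trivial; the product of these words
for all columns depends on the parity only. The closed braid with five strands which is made
from these permutations is a disjoint union of cycles: five cycles of the same length if the parity
is even, and otherwise three cycles, two of which have double length. Every input bit of the
generalised inner product controls some entries of the adjacency matrix of the first graph, and the
entries belonging to different files are `c n` rows apart.
-/

set_option autoImplicit false

namespace Pool.Agent.Results.MP_128e7d_lc.StackTradeoff

open Pool.Agent.W896.HP Pool.Agent.W896.HB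

/-- For every number `k` of heads there is a constant `D` such that for all `n` and `T`, for `Q` the
isomorphism, or the non-isomorphism, of graphs with `n` vertices, and for all finite families `U r`
of nondeterministic programs with `k` heads and a stack, whose input is a pair of adjacency
matrices: if no `U r` accepts a pair of graphs outside `Q`, and every pair in `Q` is accepted by at
least a `2 ^ (- ⌊n / D⌋)` fraction of the `U r` in a computation in which the total way of the heads
is at most `T`, then some `U r`, with `s` nodes, satisfies
`n ^ 3 ≤ D (T + n ^ 2) (⌊log₂ s⌋ + 1)`. -/
theorem result (k : ℕ) : ∃ D : ℕ, 0 < D ∧ ∀ (n T : ℕ)
    (Q : SimpleGraph (Fin n) → SimpleGraph (Fin n) → Prop),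
    ((Q = fun G H => Nonempty (G ≃g H)) ∨ (Q = fun G H => ¬ Nonempty (G ≃g H))) →
    ∀ (R : Type) [Fintype R] [Nonempty R] (U : R → Prog (Fin k) (Bool × Fin n × Fin n)),
      (∀ r G H l, (U r).Acc (mats G H) l → Q G H) →
      (∀ G H, Q G H → Nat.card R ≤ 2 ^ (n / D) *
        Nat.card {r // ∃ l, (U r).Acc (mats G H) l ∧ travel cellPos l ≤ T}) →
      ∃ r, n ^ 3 ≤ D * ((T + n ^ 2) * (Nat.log 2 (Fintype.card (U r).State) + 1)) :=
  gi_stack k

end Pool.Agent.Results.MP_128e7d_lc.StackTradeoff
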