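import Pool.Agent.W877.ST.Main

/-!
# Isomorphism of Steiner triple systems needs Weisfeiler-Leman dimension of order `log n`

There is a constant `C` such that for every `k ≥ 1` there are two Steiner triple systems on the
same number `n ≤ 2 ^ (C k)` of points whose block graphs (Steiner graphs) are not isomorphic but
are not distinguished by the `k`-dimensional Weisfeiler-Leman method. So the combinatorial method
with a dimension `o(log n)` does not decide the isomorphism of Steiner graphs (or of Steiner
triple systems), while dimension `O(log n)`, the method behind the time bound `n ^ O(log n)` of
Miller, suffices.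

The systems are those of Steiner loops on `A × 𝔽₂ ^ E × 𝔽₂`, with `A = 𝔽₂ ^ a` and `E` the set of
edges of a graph with `O(k)` vertices and edges which keeps a large component after the deletion
of `2 k + 2` vertices. The product is `u + v + (0, 0, F(u, v))` with `F` totally symmetric: on a
line of `A` it is the sum of a function `h` of the line, chosen by counting so that the only
isomorphisms are gauge transformations, and of linear functionals of the coordinate in `𝔽₂ ^ E`
at the three points; they carry a system of equations of Cai-Fürer-Immerman type.
-/

set_option autoImplicit false

namespace Pool.Agent.Results.MP_128e7d_lc.SteinerTripleWL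

open Pool.Agent.W185.SRG Pool.Agent.W877.ST

theorem result : ∃ C : ℕ, ∀ k : ℕ, 1 ≤ k →
    ∃ (P : Type) (_ : Fintype P) (B B' : Finset (Finset P)), IsSTS B ∧ IsSTS B' ∧
      Fintype.card P ≤ 2 ^ (C * k) ∧ IsEmpty (blockGraph B ≃g blockGraph B') ∧
      WLEquivalent k (blockGraph B) (blockGraph B') :=
  ⟨16432, fun k hk => Pool.Agent.W877.ST.main k hk⟩

end Pool.Agent.Results.MP_128e7d_lc.SteinerTripleWL
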