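import Pool.Agent.W892.BruteIso

/-!
# Two fixed nonisomorphic graphs that no circuit with few wirings tells apart

A circuit reads the adjacency bits of two graphs on the vertex set `W`. Its gates compute arbitrary
functions, with values in an arbitrary set, of the bit that they read and of the multiset of the
labelled values on their wires; the fan-in is unbounded, the circuit is nonuniform, and no symmetry
is assumed. A relabeling of the vertices of the first graph turns the wiring of a gate (the bit
that it reads, and the multiset of the labelled functions on the wires that enter it) into a
transform of the wiring. In a circuit that is symmetric under the relabelings of the first graph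
there are at most as many transforms as gates.

For every `R` there are, for all large `n = |W|`, two graphs `G` and `H` on `W` such that `G` has a
clique of some size `k` while `H` has no clique of size `k / R` (so they are not isomorphic, in a
strong sense), and such that every circuit with fewer than `2 ^ (n / K)` transforms of wirings
outputs every value for exactly as many relabelings of `G` as of `H`, whatever the second graph
is. So such a circuit has no advantage at all in telling random relabelings of `G` from random
relabelings of `H`; in particular it does not decide isomorphism. On the other hand the circuit
that tries all bijections has at most `2 n ^ 2 + n! + 1` transforms of wirings.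

The first part is the theorem `iso_pair` of the starting file `Pool/Agent/H429R4/GC/Iso.lean` (by
helper429), which had not been handed in.
-/

namespace Pool.Agent.Results.MP_128e7d_lc.ZFixedPairCircuits

open Pool.Agent.H429R4.Sem (Circuit)
open Pool.Agent.H429R4.GC (adjPair numWirings firstRelabelings)

/-- For every `R > 0` there is `K` such that for every finite set `W` with at least `K` elements:

1. there are nonisomorphic graphs `G` and `H` on `W`, such that `G` has a clique of some size `k`
and `H` has no clique of any size `q` with `k ≤ R * q`, and such that for every circuit for which
the number `T` of the different transforms of the wirings of its gates under the relabelings of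
the first graph satisfies `T ^ K < 2 ^ |W|`, every value `d` and every graph `F` on `W`, the number
of the relabelings `σ` for which the circuit outputs `d` on (`G` relabeled by `σ`, `F`) is equal to
the number of those for which it outputs `d` on (`H` relabeled by `σ`, `F`);

2. some circuit for which this number is at most `2 |W| ^ 2 + |W|! + 1` decides isomorphism. -/
theorem result (R : ℕ) (hR : 0 < R) :
    ∃ K : ℕ, ∀ (W : Type) [Fintype W], K ≤ Fintype.card W →
      (∃ G H : SimpleGraph W, (∃ k : ℕ, ¬ G.CliqueFree k ∧ ∀ q, k ≤ R * q → H.CliqueFree q) ∧
        IsEmpty (G ≃g H) ∧
        ∀ (D L : Type) (C : Circuit ((W × W) ⊕ (W × W)) D L) (d : D),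
          numWirings adjPair C (firstRelabelings W) ^ K < 2 ^ Fintype.card W →
          ∀ F : SimpleGraph W,
            Nat.card {σ : Equiv.Perm W // C.output (adjPair (G.comap σ, F)) = d} =
              Nat.card {σ : Equiv.Perm W // C.output (adjPair (H.comap σ, F)) = d}) ∧
      ∃ C : Circuit ((W × W) ⊕ (W × W)) Bool (Option ((W × W) × Bool)),
        numWirings adjPair C (firstRelabelings W) ≤
          2 * Fintype.card W ^ 2 + (Fintype.card W).factorial + 1 ∧
        ∀ G H : SimpleGraph W, C.output (adjPair (G, H)) = true ↔ Nonempty (G ≃g H) := by
  classical
  obtain ⟨K, hK⟩ := Pool.Agent.H429R4.GC.iso_pair hR
  refine ⟨K, fun W _ hW => ⟨?_, Pool.Agent.W892.bruteIso W,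
    Pool.Agent.W892.numWirings_bruteIso, fun G H => Pool.Agent.W892.bruteIso_output (G, H)⟩⟩
  obtain ⟨G, H, k, h1, h2, h3, h4⟩ := hK W hW
  exact ⟨G, H, ⟨k, h1, h2⟩, h3, h4⟩

end Pool.Agent.Results.MP_128e7d_lc.ZFixedPairCircuits
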